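import Pool.Agent.Helper85.REC.Stmts14

/-!
# REC, row TLH: tensor products with commutative representations
-/

set_option autoImplicit false

open NumberField Polynomial

namespace REC

open MU

/-- the Kronecker product -/
noncomputable abbrev kp55 {R α β γ δ : Type} [CommRing R] (A : Matrix α β R) (B : Matrix γ δ R) :
    Matrix (α × γ) (β × δ) R := Matrix.kroneckerMap (· * ·) A B

lemma kp55_mul {R α β β' γ δ δ' : Type} [CommRing R] [Fintype β] [Fintype δ]
    (A : Matrix α β R) (A' : Matrix β β' R) (B : Matrix γ δ R) (B' : Matrix δ δ' R) :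
    kp55 A B * kp55 A' B' = kp55 (A * A') (B * B') :=
  (Matrix.mul_kronecker_mul A A' B B').symm

lemma comm_ker55 {G H : Type} [Group G] [Group H] (B : G →* H)
    (hB : ∀ x x', B x * B x' = B x' * B x) (x : G) (hx : x ∈ commutator G) : B x = 1 := by
  have h1 : commutator G ≤ B.ker := by
    rw [commutator_def, Subgroup.commutator_le]
    intro a _ b _
    rw [MonoidHom.mem_ker, commutatorElement_def, map_mul, map_mul, map_mul, hB a b, map_inv,
      map_inv]
    group
  exact h1 hx

lemma ent55 {k α : Type} [Field k] [Fintype α] (Z : Matrix α α k) (hZ : Z ≠ 0) :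
    ∃ x y, Z x y ≠ 0 := by
  by_contra h
  push Not at h
  apply hZ
  ext x y
  simpa using h x y

/-- a matrix killed on the left by all `V Z V'` is zero -/
lemma kill_left55 {k α β γ δ : Type} [Field k] [Fintype α] [Fintype β]
    [DecidableEq α] [DecidableEq β]
    (Z : Matrix α α k) (hZ : Z ≠ 0) (u : Matrix (α × β) (γ × δ) k)
    (h : ∀ V V' : Matrix α α k, kp55 (V * Z * V') (1 : Matrix β β k) * u = 0) : u = 0 := by
  obtain ⟨x, y, hxy⟩ := ent55 Z hZ
  ext ⟨w, i⟩ ⟨w', j⟩
  have h1 := h (Matrix.single w x 1) (Matrix.single y w 1)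
  have h2 : Matrix.single w x 1 * Z * Matrix.single y w 1 = Matrix.single w w (Z x y) := by
    ext a b
    simp only [Matrix.mul_apply, Matrix.single_apply]
    by_cases ha : w = a
    · by_cases hb : w = b
      · subst ha; subst hb
        simp
      · simp [hb]
    · simp [ha]
  rw [h2] at h1
  have h3 := congrFun (congrFun h1 (w, i)) (w', j)
  rw [Matrix.mul_apply, Finset.sum_eq_single (w, i)] at h3
  · simp only [Matrix.kroneckerMap_apply, Matrix.single_apply, Matrix.one_apply] at h3
    simpa [hxy] using h3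
  · rintro ⟨a, b⟩ _ hab
    simp only [Matrix.kroneckerMap_apply, Matrix.single_apply, Matrix.one_apply]
    by_cases ha : w = a
    · by_cases hb : i = b
      · exact absurd (by rw [ha, hb]) hab
      · simp [hb]
    · simp [ha]
  · intro h; exact absurd (Finset.mem_univ _) h

/-- a matrix killed on the right by all `V Z V'` is zero -/
lemma kill_right55 {k α β γ δ : Type} [Field k] [Fintype γ] [Fintype δ]
    [DecidableEq γ] [DecidableEq δ]
    (Z : Matrix γ γ k) (hZ : Z ≠ 0) (u : Matrix (α × β) (γ × δ) k)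
    (h : ∀ V V' : Matrix γ γ k, u * kp55 (V * Z * V') (1 : Matrix δ δ k) = 0) : u = 0 := by
  obtain ⟨x, y, hxy⟩ := ent55 Z hZ
  ext ⟨w', j⟩ ⟨w, i⟩
  have h1 := h (Matrix.single w x 1) (Matrix.single y w 1)
  have h2 : Matrix.single w x 1 * Z * Matrix.single y w 1 = Matrix.single w w (Z x y) := by
    ext a b
    simp only [Matrix.mul_apply, Matrix.single_apply]
    by_cases ha : w = a
    · by_cases hb : w = b
      · subst ha; subst hb
        simp
      · simp [hb]
    · simp [ha]
  rw [h2] at h1
  have h3 := congrFun (congrFun h1 (w', j)) (w, i)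
  rw [Matrix.mul_apply, Finset.sum_eq_single (w, i)] at h3
  · simp only [Matrix.kroneckerMap_apply, Matrix.single_apply, Matrix.one_apply] at h3
    simpa [hxy] using h3
  · rintro ⟨a, b⟩ _ hab
    simp only [Matrix.kroneckerMap_apply, Matrix.single_apply, Matrix.one_apply]
    by_cases ha : w = a
    · by_cases hb : i = b
      · exact absurd (by rw [ha, hb]) hab
      · simp [Ne.symm hb]
    · simp [ha]
  · intro h; exact absurd (Finset.mem_univ _) h

/-- the pairs of matrices intertwined by `u` -/
def Int55 {k α β γ δ : Type} [Field k] [Fintype α] [Fintype β] [Fintype γ]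
    [Fintype δ] [DecidableEq β] [DecidableEq δ]
    (u : Matrix (α × β) (γ × δ) k) (Z : Matrix γ γ k) (Z' : Matrix α α k) : Prop :=
  u * kp55 Z (1 : Matrix δ δ k) = kp55 Z' (1 : Matrix β β k) * u

lemma Int55.mul {k α β γ δ : Type} [Field k] [Fintype α] [Fintype β] [Fintype γ]
    [Fintype δ] [DecidableEq β] [DecidableEq δ]
    {u : Matrix (α × β) (γ × δ) k} {Z Z1 : Matrix γ γ k} {Z' Z1' : Matrix α α k}
    (h : Int55 u Z Z') (h1 : Int55 u Z1 Z1') : Int55 u (Z * Z1) (Z' * Z1') := by
  unfold Int55 at *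
  have e1 : kp55 (Z * Z1) (1 : Matrix δ δ k) = kp55 Z 1 * kp55 Z1 1 := by
    rw [kp55_mul, one_mul]
  have e2 : kp55 (Z' * Z1') (1 : Matrix β β k) = kp55 Z' 1 * kp55 Z1' 1 := by
    rw [kp55_mul, one_mul]
  rw [e1, e2, ← Matrix.mul_assoc, h, Matrix.mul_assoc, h1, Matrix.mul_assoc]

lemma kp55_add {R α β γ δ : Type} [CommRing R] (A A' : Matrix α β R) (B : Matrix γ δ R) :
    kp55 (A + A') B = kp55 A B + kp55 A' B := by
  ext ⟨a, b⟩ ⟨c, d⟩
  simp [Matrix.kroneckerMap_apply, add_mul]

lemma kp55_smul {R α β γ δ : Type} [CommRing R] (r : R) (A : Matrix α β R) (B : Matrix γ δ R) :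
    kp55 (r • A) B = r • kp55 A B := by
  ext ⟨a, b⟩ ⟨c, d⟩
  simp [Matrix.kroneckerMap_apply, mul_assoc]

lemma kp55_zero {R α β γ δ : Type} [CommRing R] (B : Matrix γ δ R) :
    kp55 (0 : Matrix α β R) B = 0 := by
  ext ⟨a, b⟩ ⟨c, d⟩
  simp [Matrix.kroneckerMap_apply]

lemma Int55.add {k α β γ δ : Type} [Field k] [Fintype α] [Fintype β] [Fintype γ]
    [Fintype δ] [DecidableEq β] [DecidableEq δ]
    {u : Matrix (α × β) (γ × δ) k} {Z Z1 : Matrix γ γ k} {Z' Z1' : Matrix α α k}
    (h : Int55 u Z Z') (h1 : Int55 u Z1 Z1') : Int55 u (Z + Z1) (Z' + Z1') := by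
  unfold Int55 at *
  rw [kp55_add, kp55_add, Matrix.mul_add, Matrix.add_mul, h, h1]

lemma Int55.smul {k α β γ δ : Type} [Field k] [Fintype α] [Fintype β] [Fintype γ]
    [Fintype δ] [DecidableEq β] [DecidableEq δ]
    {u : Matrix (α × β) (γ × δ) k} {Z : Matrix γ γ k} {Z' : Matrix α α k} (r : k)
    (h : Int55 u Z Z') : Int55 u (r • Z) (r • Z') := by
  unfold Int55 at *
  rw [kp55_smul, kp55_smul, Matrix.mul_smul, Matrix.smul_mul, h]

lemma Int55.zero {k α β γ δ : Type} [Field k] [Fintype α] [Fintype β] [Fintype γ]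
    [Fintype δ] [DecidableEq β] [DecidableEq δ]
    {u : Matrix (α × β) (γ × δ) k} : Int55 u 0 0 := by
  unfold Int55
  rw [kp55_zero, kp55_zero, Matrix.mul_zero, Matrix.zero_mul]

lemma Int55.sum {k α β γ δ : Type} [Field k] [Fintype α] [Fintype β] [Fintype γ]
    [Fintype δ] [DecidableEq β] [DecidableEq δ]
    {u : Matrix (α × β) (γ × δ) k} {N : ℕ} (a : Fin N → k) (Z : Fin N → Matrix γ γ k)
    (Z' : Fin N → Matrix α α k) (h : ∀ b, Int55 u (Z b) (Z' b)) :
    Int55 u (∑ b, a b • Z b) (∑ b, a b • Z' b) := by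
  have : ∀ s : Finset (Fin N), Int55 u (∑ b ∈ s, a b • Z b) (∑ b ∈ s, a b • Z' b) := by
    intro s
    induction s using Finset.induction_on with
    | empty => simpa using Int55.zero
    | insert b s hb ih =>
      rw [Finset.sum_insert hb, Finset.sum_insert hb]
      exact ((h b).smul (a b)).add ih
  exact this Finset.univ

/-- `w` placed in the fibre over `x` -/
def emb55 {k α β : Type} [Field k] [DecidableEq α] (x : α) (w : β → k) : α × β → k :=
  fun p => if p.1 = x then w p.2 else 0

lemma emb55_add {k α β : Type} [Field k] [DecidableEq α] (x : α) (w w' : β → k) :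
    emb55 x (w + w') = emb55 x w + emb55 x w' := by
  ext p
  by_cases h : p.1 = x <;> simp [emb55, h]

lemma emb55_smul {k α β : Type} [Field k] [DecidableEq α] (x : α) (r : k) (w : β → k) :
    emb55 x (r • w) = r • emb55 x w := by
  ext p
  by_cases h : p.1 = x <;> simp [emb55, h]

lemma emb55_zero {k α β : Type} [Field k] [DecidableEq α] (x : α) :
    emb55 x (0 : β → k) = 0 := by
  ext p
  by_cases h : p.1 = x <;> simp [emb55, h]

lemma emb55_sum {k α β : Type} [Field k] [Fintype α] [DecidableEq α] (f : α × β → k) :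
    ∑ y, emb55 y (fun j => f (y, j)) = f := by
  ext ⟨a, b⟩
  rw [Finset.sum_apply, Finset.sum_eq_single a]
  · simp [emb55]
  · intro c _ hc
    simp [emb55, Ne.symm hc]
  · intro h; exact absurd (Finset.mem_univ _) h

lemma kp55_one_mulVec {k α β γ : Type} [Field k] [Fintype α] [DecidableEq α] [Fintype γ]
    (C : Matrix β γ k) (f : α × γ → k) (y : α) (j : β) :
    (kp55 (1 : Matrix α α k) C).mulVec f (y, j) = C.mulVec (fun j => f (y, j)) j := by
  rw [Matrix.mulVec, Matrix.mulVec, dotProduct, dotProduct, Fintype.sum_prod_type,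
    Finset.sum_eq_single y]
  · simp [Matrix.kroneckerMap_apply]
  · intro c _ hc
    apply Finset.sum_eq_zero
    intro d _
    simp [Matrix.kroneckerMap_apply, Matrix.one_apply, Ne.symm hc]
  · intro h; exact absurd (Finset.mem_univ _) h

lemma kp55_one_emb {k α β γ : Type} [Field k] [Fintype α] [DecidableEq α] [Fintype γ]
    (C : Matrix β γ k) (x : α) (w : γ → k) :
    (kp55 (1 : Matrix α α k) C).mulVec (emb55 x w) = emb55 x (C.mulVec w) := by
  ext ⟨y, j⟩
  rw [kp55_one_mulVec]
  by_cases h : y = x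
  · subst h
    simp [emb55]
  · simp [emb55, h, Matrix.mulVec, dotProduct]

lemma kp55_single_mulVec {k α β : Type} [Field k] [Fintype α] [DecidableEq α] [Fintype β]
    [DecidableEq β] (x y : α) (f : α × β → k) :
    (kp55 (Matrix.single x y (1 : k)) (1 : Matrix β β k)).mulVec f
      = emb55 x (fun j => f (y, j)) := by
  ext ⟨a, b⟩
  rw [Matrix.mulVec, dotProduct, Finset.sum_eq_single (y, b)]
  · by_cases h : a = x
    · subst h
      simp [emb55, Matrix.kroneckerMap_apply]
    · simp [emb55, h, Matrix.kroneckerMap_apply, Matrix.single_apply, Ne.symm h]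
  · rintro ⟨c, d⟩ _ hcd
    by_cases h1 : y = c
    · by_cases h2 : b = d
      · exact absurd (by rw [h1, h2]) hcd
      · simp [Matrix.kroneckerMap_apply, Matrix.one_apply, h2]
    · simp [Matrix.kroneckerMap_apply, Matrix.single_apply, h1]
  · intro h; exact absurd (Finset.mem_univ _) h

/-- complete reducibility of `S ⊗ B` if all `Z ⊗ 1` preserve the stable subspaces -/
lemma ssx55 {G k α β : Type} [Field k] [Fintype α] [DecidableEq α] [Fintype β] [DecidableEq β]
    (S S' : G → Matrix α α k) (B : G → Matrix β β k) (hS : ∀ x, S' x * S x = 1)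
    (hW : ∀ W : Submodule k (α × β → k),
      (∀ x, ∀ f ∈ W, (kp55 (S x) (B x)).mulVec f ∈ W) →
      ∀ Z : Matrix α α k, ∀ f ∈ W, (kp55 Z (1 : Matrix β β k)).mulVec f ∈ W)
    (hB : SSx B) : SSx (fun x => kp55 (S x) (B x)) := by
  intro W hWst
  have hZ := hW W hWst
  let W' : Submodule k (β → k) :=
    { carrier := {w | ∀ x : α, emb55 x w ∈ W}
      add_mem' := by
        intro a b ha hb x
        rw [emb55_add]
        exact W.add_mem (ha x) (hb x)
      zero_mem' := by
        intro x
        rw [emb55_zero]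
        exact W.zero_mem
      smul_mem' := by
        intro r a ha x
        rw [emb55_smul]
        exact W.smul_mem r (ha x) }
  have hmem : ∀ f ∈ W, ∀ y : α, (fun j => f (y, j)) ∈ W' := by
    intro f hf y x
    rw [← kp55_single_mulVec]
    exact hZ _ f hf
  have hmem' : ∀ f : α × β → k, (∀ y : α, (fun j => f (y, j)) ∈ W') → f ∈ W := by
    intro f hf
    rw [← emb55_sum f]
    exact W.sum_mem (fun y _ => hf y y)
  have hst : ∀ g, ∀ w ∈ W', (B g).mulVec w ∈ W' := by
    intro g w hw x
    rw [← kp55_one_emb]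
    have e : kp55 (1 : Matrix α α k) (B g)
        = kp55 (S' g) (1 : Matrix β β k) * kp55 (S g) (B g) := by
      rw [kp55_mul, hS, one_mul]
    rw [e, ← Matrix.mulVec_mulVec]
    exact hZ _ _ (hWst g _ (hw x))
  obtain ⟨e', he1, he2, he3⟩ := hB W' hst
  refine ⟨kp55 1 e', ?_, ?_, ?_⟩
  · intro g
    show kp55 1 e' * kp55 (S g) (B g) = kp55 (S g) (B g) * kp55 1 e'
    rw [kp55_mul, kp55_mul, one_mul, mul_one, he1]
  · intro f
    apply hmem'
    intro y
    have h1 : (fun j => (kp55 (1 : Matrix α α k) e').mulVec f (y, j))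
        = e'.mulVec (fun j => f (y, j)) := by
      ext j
      rw [kp55_one_mulVec]
    rw [h1]
    exact he2 _
  · intro f hf
    ext ⟨y, j⟩
    rw [kp55_one_mulVec, he3 _ (hmem f hf y)]

lemma single_comm55 {k α β δ : Type} [Field k] [Fintype α] [DecidableEq α] [Fintype β]
    [DecidableEq β] [Fintype δ] [DecidableEq δ] (u : Matrix (α × β) (α × δ) k)
    (h : ∀ Z : Matrix α α k, Int55 u Z Z) (x0 : α) :
    u = kp55 (1 : Matrix α α k) (Matrix.of fun i j => u (x0, i) (x0, j)) := by
  have h1 : ∀ (x y a : α) (i : β) (j : δ),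
      (if y = a then u (x0, i) (x, j) else 0) = (if x0 = x then u (y, i) (a, j) else 0) := by
    intro x y a i j
    have h2 := congrFun (congrFun (h (Matrix.single x y (1 : k))) (x0, i)) (a, j)
    rw [Matrix.mul_apply, Matrix.mul_apply, Finset.sum_eq_single (x, j),
      Finset.sum_eq_single (y, i)] at h2
    · simp only [Matrix.kroneckerMap_apply, Matrix.single_apply, Matrix.one_apply] at h2
      simp only [if_true, true_and, mul_one] at h2
      by_cases hy : y = a <;> by_cases hx : x0 = x <;> simp_all [eq_comm]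
    · rintro ⟨c, d⟩ _ hcd
      by_cases h3 : y = c
      · by_cases h4 : i = d
        · exact absurd (by rw [h3, h4]) hcd
        · simp [Matrix.kroneckerMap_apply, Matrix.one_apply, h4]
      · simp [Matrix.kroneckerMap_apply, Matrix.single_apply, h3]
    · intro h; exact absurd (Finset.mem_univ _) h
    · rintro ⟨c, d⟩ _ hcd
      by_cases h3 : x = c
      · by_cases h4 : d = j
        · exact absurd (by rw [h3, h4]) hcd
        · simp [Matrix.kroneckerMap_apply, Matrix.one_apply, h4]
      · simp [Matrix.kroneckerMap_apply, Matrix.single_apply, h3]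
    · intro h; exact absurd (Finset.mem_univ _) h
  ext ⟨y, i⟩ ⟨a, j⟩
  have h2 := h1 x0 y a i j
  rw [if_pos rfl] at h2
  rw [← h2]
  by_cases hy : y = a
  · simp [Matrix.kroneckerMap_apply, hy]
  · simp [Matrix.kroneckerMap_apply, hy]

theorem st_TLH : ST_SYF → ST_SPN → ST_TLH := by
  intro hSYF hSPN G _ l t _ g hg m m' B B' hB hB' c c' hc hc'
  obtain ⟨_, _, hmul, hone, _, _⟩ := hSYF (ZMod l)
  obtain ⟨_, _, _, _, _, hmap⟩ := hSYF ℤ_[l]
  -- the residual matrices
  let Bl : G → Matrix (Fin m) (Fin m) (ZMod l) :=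
    fun x => (B x : Matrix (Fin m) (Fin m) ℤ_[l]).map (PadicInt.toZMod (p := l))
  let Bl' : G → Matrix (Fin m') (Fin m') (ZMod l) :=
    fun x => (B' x : Matrix (Fin m') (Fin m') ℤ_[l]).map (PadicInt.toZMod (p := l))
  have hT : ∀ (d : Fin t → ℕ) (x : G), (tpc d (fun i => (g i x : Matrix (Fin 2) (Fin 2) ℤ_[l]))
      (B x : Matrix (Fin m) (Fin m) ℤ_[l])).map (PadicInt.toZMod (p := l))
      = kp55 (tenM d (fun i => res (g i) x)) (Bl x) := by
    intro d x
    exact (hmap (ZMod l) (PadicInt.toZMod (p := l)) t m d _ _).2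
  have hT' : ∀ (d : Fin t → ℕ) (x : G), (tpc d (fun i => (g i x : Matrix (Fin 2) (Fin 2) ℤ_[l]))
      (B' x : Matrix (Fin m') (Fin m') ℤ_[l])).map (PadicInt.toZMod (p := l))
      = kp55 (tenM d (fun i => res (g i) x)) (Bl' x) := by
    intro d x
    exact (hmap (ZMod l) (PadicInt.toZMod (p := l)) t m' d _ _).2
  have hinv : ∀ (d : Fin t → ℕ) (x : G),
      tenM d (fun i => res (g i) x⁻¹) * tenM d (fun i => res (g i) x) = 1 := by
    intro d x
    rw [← hmul]
    have h1 : (fun i => res (g i) x⁻¹ * res (g i) x)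
        = (fun _ => (1 : Matrix (Fin 2) (Fin 2) (ZMod l))) := by
      funext i
      rw [← map_mul, inv_mul_cancel, map_one]
    rw [h1]
    exact hone t d
  have hB1 : ∀ x ∈ commutator G, Bl x = 1 := by
    intro x hx
    show (B x : Matrix (Fin m) (Fin m) ℤ_[l]).map (PadicInt.toZMod (p := l)) = 1
    rw [comm_ker55 B hB x hx, Units.val_one]
    exact Matrix.map_one _ (map_zero _) (map_one _)
  have hB1' : ∀ x ∈ commutator G, Bl' x = 1 := by
    intro x hx
    show (B' x : Matrix (Fin m') (Fin m') ℤ_[l]).map (PadicInt.toZMod (p := l)) = 1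
    rw [comm_ker55 B' hB' x hx, Units.val_one]
    exact Matrix.map_one _ (map_zero _) (map_one _)
  constructor
  · -- complete reducibility
    intro hSS
    have h1 : SSx (fun x => kp55 (tenM c (fun i => res (g i) x)) (Bl x)) := by
      refine ssx55 (fun x => tenM c (fun i => res (g i) x))
        (fun x => tenM c (fun i => res (g i) x⁻¹)) Bl (hinv c) ?_ hSS
      intro W hW Z f hf
      have hZ : Z ∈ Submodule.span (ZMod l)
          {z : Matrix (∀ i, Fin (c i + 1)) (∀ i, Fin (c i + 1)) (ZMod l) |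
            ∃ g : Fin t → Matrix (Fin 2) (Fin 2) (ZMod l), (∀ i, (g i).det = 1) ∧
              z = tenM c g} := by
        rw [(hSPN l t c hc).1]
        trivial
      induction hZ using Submodule.span_induction with
      | mem z hz =>
        obtain ⟨Y, hY, rfl⟩ := hz
        obtain ⟨x, hx, hxY⟩ := hg Y hY
        have h2 := hW x f hf
        rw [hB1 x hx] at h2
        have h3 : (fun i => res (g i) x) = Y := funext hxY
        rw [h3] at h2
        exact h2
      | zero =>
        rw [kp55_zero, Matrix.zero_mulVec]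
        exact W.zero_mem
      | add a b _ _ ha hb =>
        rw [kp55_add, Matrix.add_mulVec]
        exact W.add_mem ha hb
      | smul r a _ ha =>
        rw [kp55_smul, Matrix.smul_mulVec]
        exact W.smul_mem r ha
    have h2 : (fun x => (tpc c (fun i => (g i x : Matrix (Fin 2) (Fin 2) ℤ_[l]))
        (B x : Matrix (Fin m) (Fin m) ℤ_[l])).map (PadicInt.toZMod (p := l)))
        = (fun x => kp55 (tenM c (fun i => res (g i) x)) (Bl x)) := funext (hT c)
    rw [h2]
    exact h1
  · -- lifting of homomorphisms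
    intro hLF u hu
    have hu' : ∀ x, u * kp55 (tenM c (fun i => res (g i) x)) (Bl x)
        = kp55 (tenM c' (fun i => res (g i) x)) (Bl' x) * u := by
      intro x
      have h1 := hu x
      rw [hT c x, hT' c' x] at h1
      exact h1
    have hInt : ∀ Y : Fin t → Matrix (Fin 2) (Fin 2) (ZMod l), (∀ i, (Y i).det = 1) →
        Int55 u (tenM c Y) (tenM c' Y) := by
      intro Y hY
      obtain ⟨x, hx, hxY⟩ := hg Y hY
      have h1 := hu' x
      rw [hB1 x hx, hB1' x hx] at h1
      have h3 : (fun i => res (g i) x) = Y := funext hxY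
      rw [h3] at h1
      exact h1
    have hex1 : ∀ Z : Matrix (∀ i, Fin (c i + 1)) (∀ i, Fin (c i + 1)) (ZMod l),
        ∃ Z' : Matrix (∀ i, Fin (c' i + 1)) (∀ i, Fin (c' i + 1)) (ZMod l), Int55 u Z Z' := by
      intro Z
      have hZ : Z ∈ Submodule.span (ZMod l)
          {z : Matrix (∀ i, Fin (c i + 1)) (∀ i, Fin (c i + 1)) (ZMod l) |
            ∃ g : Fin t → Matrix (Fin 2) (Fin 2) (ZMod l), (∀ i, (g i).det = 1) ∧
              z = tenM c g} := by
        rw [(hSPN l t c hc).1]
        trivial
      induction hZ using Submodule.span_induction with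
      | mem z hz =>
        obtain ⟨Y, hY, rfl⟩ := hz
        exact ⟨_, hInt Y hY⟩
      | zero => exact ⟨0, Int55.zero⟩
      | add a b _ _ ha hb =>
        obtain ⟨a', ha'⟩ := ha
        obtain ⟨b', hb'⟩ := hb
        exact ⟨_, ha'.add hb'⟩
      | smul r a _ ha =>
        obtain ⟨a', ha'⟩ := ha
        exact ⟨_, ha'.smul r⟩
    have hex2 : ∀ Z' : Matrix (∀ i, Fin (c' i + 1)) (∀ i, Fin (c' i + 1)) (ZMod l),
        ∃ Z : Matrix (∀ i, Fin (c i + 1)) (∀ i, Fin (c i + 1)) (ZMod l), Int55 u Z Z' := by
      intro Z'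
      have hZ : Z' ∈ Submodule.span (ZMod l)
          {z : Matrix (∀ i, Fin (c' i + 1)) (∀ i, Fin (c' i + 1)) (ZMod l) |
            ∃ g : Fin t → Matrix (Fin 2) (Fin 2) (ZMod l), (∀ i, (g i).det = 1) ∧
              z = tenM c' g} := by
        rw [(hSPN l t c' hc').1]
        trivial
      induction hZ using Submodule.span_induction with
      | mem z hz =>
        obtain ⟨Y, hY, rfl⟩ := hz
        exact ⟨_, hInt Y hY⟩
      | zero => exact ⟨0, Int55.zero⟩
      | add a b _ _ ha hb =>
        obtain ⟨a', ha'⟩ := ha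
        obtain ⟨b', hb'⟩ := hb
        exact ⟨_, ha'.add hb'⟩
      | smul r a _ ha =>
        obtain ⟨a', ha'⟩ := ha
        exact ⟨_, ha'.smul r⟩
    by_cases hcc : c = c'
    · subst hcc
      let x0 : ∀ i, Fin (c i + 1) := fun _ => 0
      have hall : ∀ Z : Matrix (∀ i, Fin (c i + 1)) (∀ i, Fin (c i + 1)) (ZMod l),
          Int55 u Z Z := by
        intro Z
        have hZ : Z ∈ Submodule.span (ZMod l)
            {z : Matrix (∀ i, Fin (c i + 1)) (∀ i, Fin (c i + 1)) (ZMod l) |
              ∃ g : Fin t → Matrix (Fin 2) (Fin 2) (ZMod l), (∀ i, (g i).det = 1) ∧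
                z = tenM c g} := by
          rw [(hSPN l t c hc).1]
          trivial
        induction hZ using Submodule.span_induction with
        | mem z hz =>
          obtain ⟨Y, hY, rfl⟩ := hz
          exact hInt Y hY
        | zero => exact Int55.zero
        | add a b _ _ ha hb => exact ha.add hb
        | smul r a _ ha => exact ha.smul r
      have huv := single_comm55 u hall x0
      set v : Matrix (Fin m') (Fin m) (ZMod l) := Matrix.of fun i j => u (x0, i) (x0, j) with hv
      have hvB : ∀ x, v * Bl x = Bl' x * v := by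
        intro x
        have h1 := hu' x
        rw [huv, kp55_mul, kp55_mul, one_mul, mul_one] at h1
        have hne : tenM c (fun i => res (g i) x) ≠ 0 := by
          intro h0
          have h2 := hinv c x
          rw [h0, Matrix.mul_zero] at h2
          have h3 := congrFun (congrFun h2 x0) x0
          rw [Matrix.one_apply_eq, Matrix.zero_apply] at h3
          exact zero_ne_one h3
        obtain ⟨a, b, hab⟩ := ent55 _ hne
        ext i j
        have h2 := congrFun (congrFun h1 (a, i)) (b, j)
        simp only [Matrix.kroneckerMap_apply] at h2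
        exact mul_left_cancel₀ hab h2
      obtain ⟨v1, hv1, hv2⟩ := hLF v hvB
      refine ⟨kp55 1 v1, ?_, ?_⟩
      · rw [huv, ← hv1]
        ext ⟨a, i⟩ ⟨b, j⟩
        simp only [Matrix.map_apply, Matrix.kroneckerMap_apply, map_mul, Matrix.one_apply]
        by_cases hab : a = b <;> simp [hab]
      · intro x
        show kp55 1 v1 * kp55 _ _ = kp55 _ _ * kp55 1 v1
        rw [kp55_mul, kp55_mul, one_mul, mul_one, hv2]
    · have hu0 : u = 0 := by
        obtain ⟨N, a, Y, hY, h1 | h1⟩ := (hSPN l t c hc).2 c' hc' hcc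
        · have h2 : Int55 u 0 (∑ b, a b • tenM c' (Y b)) := by
            rw [← h1.1]
            exact Int55.sum a _ _ (fun b => hInt (Y b) (hY b))
          refine kill_left55 _ h1.2 u ?_
          intro V' V1'
          obtain ⟨V, hV⟩ := hex2 V'
          obtain ⟨V1, hV1⟩ := hex2 V1'
          have h3 := (hV.mul h2).mul hV1
          rw [Matrix.mul_zero, Matrix.zero_mul] at h3
          unfold Int55 at h3
          rw [← h3, kp55_zero, Matrix.mul_zero]
        · have h2 : Int55 u (∑ b, a b • tenM c (Y b)) 0 := by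
            rw [← h1.2]
            exact Int55.sum a _ _ (fun b => hInt (Y b) (hY b))
          refine kill_right55 _ h1.1 u ?_
          intro V V1
          obtain ⟨V', hV⟩ := hex1 V
          obtain ⟨V1', hV1⟩ := hex1 V1
          have h3 := (hV.mul h2).mul hV1
          rw [Matrix.mul_zero, Matrix.zero_mul] at h3
          unfold Int55 at h3
          rw [h3, kp55_zero, Matrix.zero_mul]
      refine ⟨0, ?_, ?_⟩
      · rw [hu0]
        ext a b
        simp
      · intro x
        rw [Matrix.zero_mul, Matrix.mul_zero]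

end REC
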